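import Mathlib
import Pool.Agent.H74.TorusE8

/-!
# A unimodular class `ω ∈ H⁴(ℤ⁸)` with `φ_ω ≅ E₈ ⊕ 10H`

`H^*(ℤⁿ) = H^*(Tⁿ; ℤ)` is the exterior algebra over `ℤ` on a free abelian group `V = H¹` with
basis `x₁, …, xₙ`; its degree `k` part `H^k` is `⋀[ℤ]^k V`, and `[T] = x₁ x₂ ⋯ xₙ` generates
`Hⁿ`.  A class `ω ∈ H^{n-4}` defines a symmetric bilinear form `φ_ω` on `H²` by
`a b ω = φ_ω(a, b) [T]`.  For `n = 8` we show that there is `ω ∈ H⁴` for which `φ_ω` is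
unimodular and isometric to `E₈ ⊕ 10H`.
-/

namespace Pool.Agent.Results.MP_69cf13_gt.E8Plus10H

open Module

/-- The generator `[T] = x₁ x₂ ⋯ xₙ` of `Hⁿ(ℤⁿ)`, for a basis `x₁, …, xₙ` of `V = H¹(ℤⁿ)`. -/
noncomputable def topClass {V : Type} [AddCommGroup V] {n : ℕ} (x : Basis (Fin n) ℤ V) :
    ExteriorAlgebra ℤ V :=
  (List.ofFn fun i => ExteriorAlgebra.ι ℤ (x i)).prod

/-- `φ` is the form `φ_ω` on `H²(ℤⁿ) = ⋀[ℤ]^2 V` defined by `ω`: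
`a b ω = φ(a, b) [T]` for all `a, b ∈ H²`. -/
def IsFormOf {V : Type} [AddCommGroup V] {n : ℕ} (x : Basis (Fin n) ℤ V)
    (ω : ExteriorAlgebra ℤ V) (φ : LinearMap.BilinForm ℤ (⋀[ℤ]^2 V)) : Prop :=
  ∀ a b : ⋀[ℤ]^2 V,
    (a : ExteriorAlgebra ℤ V) * (b : ExteriorAlgebra ℤ V) * ω = φ a b • topClass x

/-- A bilinear form on an abelian group `L` is unimodular if its adjoint `L → Hom(L, ℤ)`,
`v ↦ φ(v, ·)`, is bijective. -/
def IsUnimodular {L : Type} [AddCommGroup L] (φ : LinearMap.BilinForm ℤ L) : Prop :=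
  Function.Bijective fun v : L => φ v

/-- The Gram matrix of `E₈ ⊕ kH`: the Cartan matrix `E₈` and `k` blocks `!![0, 1; 1, 0]`. -/
def E8H (k : ℕ) : Matrix (Fin 8 ⊕ Fin k × Fin 2) (Fin 8 ⊕ Fin k × Fin 2) ℤ :=
  Matrix.fromBlocks CartanMatrix.E₈ 0 0
    (Matrix.of fun p q => if p.1 = q.1 ∧ p.2 ≠ q.2 then 1 else 0)

lemma topClass_eq {V : Type} [AddCommGroup V] {n : ℕ} (x : Basis (Fin n) ℤ V) :
    topClass x = Pool.Agent.H74.TorusE8.topClass x := by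
  unfold topClass Pool.Agent.H74.TorusE8.topClass
  rw [ExteriorAlgebra.ιMulti_apply]

/-- The form `φ_ω` is determined by `ω`. -/
theorem IsFormOf.unique {V : Type} [AddCommGroup V] {n : ℕ} {x : Basis (Fin n) ℤ V}
    {ω : ExteriorAlgebra ℤ V} {φ ψ : LinearMap.BilinForm ℤ (⋀[ℤ]^2 V)}
    (h1 : IsFormOf x ω φ) (h2 : IsFormOf x ω ψ) : φ = ψ := by
  refine LinearMap.ext fun a => LinearMap.ext fun b => ?_
  refine Pool.Agent.H74.TorusE8.smul_topClass_injective x ?_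
  simp only [← topClass_eq]
  exact (h1 a b).symm.trans (h2 a b)

/-- **There is a unimodular class `ω ∈ H⁴(ℤ⁸)` whose form `φ_ω` on `H²(ℤ⁸)` is isometric to
`E₈ ⊕ 10H`.**  Here `H^*(ℤ⁸)` is the exterior algebra on a free abelian group `V` with basis
`x₁, …, x₈`. -/
theorem result (V : Type) [AddCommGroup V] (x : Basis (Fin 8) ℤ V) :
    ∃ ω ∈ ⋀[ℤ]^4 V, ∃ φ : LinearMap.BilinForm ℤ (⋀[ℤ]^2 V),
      IsFormOf x ω φ ∧ IsUnimodular φ ∧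
      ∃ b : Basis (Fin 8 ⊕ Fin 10 × Fin 2) ℤ (⋀[ℤ]^2 V),
        ∀ i j, φ (b i) (b j) = E8H 10 i j := by
  obtain ⟨ω, hω, φ, hφ, hu, b, hb⟩ := Pool.Agent.H74.TorusE8.main x
  refine ⟨ω, hω, φ, ?_, hu, b, hb⟩
  intro a c
  rw [topClass_eq]
  exact hφ a c

end Pool.Agent.Results.MP_69cf13_gt.E8Plus10H
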