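import Pool.Agent.PD4.Pub.BrC

/-!
# A unimodular class of `H⁴(ℤ⁸)` which is realised by no four dimensional Poincaré complex

`H^*(ℤ⁸)` is the exterior algebra of the free abelian group `V = H¹(ℤ⁸)` with the basis
`x₁, ..., x₈` of coordinate functions, and `[T] = x₁ ⋯ x₈` generates `H⁸(ℤ⁸)`.  There is a class
`ω ∈ H⁴(ℤ⁸)` whose form `φ_ω` on `H²(ℤ⁸)`, `a b ω = φ_ω(a, b) [T]`, is unimodular, such that no
four dimensional Poincaré complex `M` with fundamental group `ℤ⁸` realises `ω`: there is no `M`
with `f_*[M] = ω ∩ [T]` whose intersection form on `H²(M)` modulo torsion is isomorphic to `φ_ω`.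
This answers Q2 of MP_69cf13_gt negatively, and (since closed topological four dimensional
manifolds are Poincaré complexes) also Q1.

All definitions are in `Pool/Agent/PD4/Pub/Defs.lean`: a Poincaré complex `M : PCx (Fin 8 → ℤ)`
is a path connected space `X` with an isomorphism `f : π₁(X) ≃ ℤ⁸`, such that the singular chain
complex of `X` with coefficients in `Λ = ℤ[π₁(X)]` is chain homotopy equivalent to a bounded
complex of finitely generated free `Λ`-modules, with a singular 4-cycle `z` such that the cap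
product `z ∩ - : H^p(X; Λ) → H_{4-p}(X; Λ)` is bijective for all `p`.
-/

namespace Pool.Agent.Results.MP_69cf13_gt.NoPoincareComplex

open Module Pool.Agent.PD4.Pub

/-- **Some unimodular `ω ∈ H⁴(ℤ⁸)` is realised by no four dimensional Poincaré complex with
fundamental group `ℤ⁸`.** -/
theorem result (V : Type) [AddCommGroup V] (x : Basis (Fin 8) ℤ V) :
    ∃ ω ∈ ⋀[ℤ]^4 V, ∃ φ : LinearMap.BilinForm ℤ (⋀[ℤ]^2 V),
      IsFormOf x ω φ ∧ IsUnimodular φ ∧ ∀ M : PCx (Fin 8 → ℤ), ¬ M.Realizes x ω φ :=
  main x

end Pool.Agent.Results.MP_69cf13_gt.NoPoincareComplex
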